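import Pool.Agent.TH983.Fin
import Pool.Agent.Helper764.Cop_fe

/-!
# Copolymer at a selective interface: the slope at the origin is never `1/(1+α)`

For every tail exponent `α > 0`, every renewal law and every disorder law as in the problem there is
`m > 1/(1+α)` with `h_c(λ) / λ ≥ m` for all small `λ > 0`.  For `α < 1` the number `m` is moreover
strictly above every level `k` that passes the integral criterion.
-/

set_option autoImplicit false
open MeasureTheory ProbabilityTheory Filter Topology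

namespace Pool.Agent.Results.MP_65efe8_pr.NegativeAnswer

/-- law of one (gap, sign) pair: gap with law `κ`, sign uniform on `{false, true}` -/
noncomputable def stepLaw (κ : PMF ℕ) : Measure (ℕ × Bool) :=
  κ.toMeasure.prod (PMF.uniformOfFintype Bool).toMeasure

instance instStepLaw (κ : PMF ℕ) : IsProbabilityMeasure (stepLaw κ) := by
  unfold stepLaw; infer_instance

/-- law of the i.i.d. sequence of (gap, sign) pairs -/
noncomputable def pathMeasure (κ : PMF ℕ) : Measure (ℕ → ℕ × Bool) :=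
  Measure.infinitePi (fun _ : ℕ => stepLaw κ)

instance instPathMeasure (κ : PMF ℕ) : IsProbabilityMeasure (pathMeasure κ) := by
  unfold pathMeasure; infer_instance

/-- renewal points `τ_0 = 0`, `τ_j` = sum of the first `j` gaps -/
def tau (x : ℕ → ℕ × Bool) (j : ℕ) : ℕ := ∑ i ∈ Finset.range j, (x i).1

/-- `Δ_n` = sign of the excursion `(τ_j, τ_{j+1}]` containing `n` (as a real number 0 or 1) -/
noncomputable def Delta (x : ℕ → ℕ × Bool) (n : ℕ) : ℝ :=
  ∑ j ∈ Finset.range n, if tau x j < n ∧ n ≤ tau x (j + 1) ∧ (x j).2 = true then 1 else 0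

/-- the copolymer partition function `Z_{N,ω,λ,h}` -/
noncomputable def Z (κ : PMF ℕ) (lam h : ℝ) (N : ℕ) (ω : ℕ → ℝ) : ℝ :=
  ∫ x, Real.exp (-2 * lam * ∑ n ∈ Finset.Icc 1 N, Delta x n * (ω n + h)) ∂(pathMeasure κ)

/-- i.i.d. disorder with law `ν` (the coordinates `1, 2, ...` are used) -/
noncomputable def disorder (ν : Measure ℝ) [IsProbabilityMeasure ν] : Measure (ℕ → ℝ) :=
  Measure.infinitePi (fun _ : ℕ => ν)

instance instDisorder (ν : Measure ℝ) [IsProbabilityMeasure ν] :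
    IsProbabilityMeasure (disorder ν) := by
  unfold disorder; infer_instance

/-- `N⁻¹ E log Z_N` -/
noncomputable def feN (κ : PMF ℕ) (ν : Measure ℝ) [IsProbabilityMeasure ν] (lam h : ℝ) (N : ℕ) : ℝ :=
  (N : ℝ)⁻¹ * ∫ ω, Real.log (Z κ lam h N ω) ∂(disorder ν)

/-- the free energy `f(λ,h)` -/
noncomputable def freeEnergy (κ : PMF ℕ) (ν : Measure ℝ) [IsProbabilityMeasure ν] (lam h : ℝ) : ℝ :=
  limUnder atTop (feN κ ν lam h)

/-- the critical curve `h_c(λ) = sup {h ≥ 0 : f(λ,h) > 0}` -/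
noncomputable def hc (κ : PMF ℕ) (ν : Measure ℝ) [IsProbabilityMeasure ν] (lam : ℝ) : ℝ :=
  sSup {h : ℝ | 0 ≤ h ∧ 0 < freeEnergy κ ν lam h}

/-- Gaussian mean of the power `1/(1+α)` of `(1+e^g)/2`, where `g` has mean `-2ky`, variance `4y` -/
noncomputable def gaussMean (α k y : ℝ) : ℝ :=
  ∫ z, ((1 + Real.exp (-2 * k * y + 2 * √y * z)) / 2) ^ (1 + α)⁻¹ ∂(gaussianReal 0 1)

/-- the integral criterion -/
noncomputable def crit (α k : ℝ) : ℝ :=
  ∫ y in Set.Ioi (0 : ℝ), y ^ (-(1 + α)) * (gaussMean α k y ^ (1 + α) - 1)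

/-- **Negative answer for every `α > 0`.**  The limits defining the free energy exist, the localized
region at `λ > 0` is `{h < h_c(λ)}`, and there is `m > 1/(1+α)` with `h_c(λ)/λ ≥ m` for all small
`λ > 0`; in particular `h_c(λ)/λ` does not tend to `1/(1+α)`.  If `α < 1`, then `m` also exceeds every
`k ≥ 1/(1+α)` at which the (absolutely convergent) integral criterion is nonnegative. -/
theorem result (κ : PMF ℕ) (hκ0 : κ 0 = 0) (α cK : ℝ) (hα : 0 < α) (hcK : 0 < cK)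
    (htail : Tendsto (fun n : ℕ => (n : ℝ) ^ (1 + α) * (κ n).toReal) atTop (𝓝 cK))
    (ν : Measure ℝ) [IsProbabilityMeasure ν]
    (hmean : ∫ x, x ∂ν = 0) (hvar : ∫ x, x ^ 2 ∂ν = 1)
    (hexp : ∀ t : ℝ, Integrable (fun x => Real.exp (t * x)) ν) :
    (∀ lam, 0 < lam →
      (∀ h, 0 ≤ h → Tendsto (feN κ ν lam h) atTop (𝓝 (freeEnergy κ ν lam h))) ∧
      0 < hc κ ν lam ∧ ∀ h, 0 ≤ h → (0 < freeEnergy κ ν lam h ↔ h < hc κ ν lam)) ∧
    (∃ m : ℝ, 1 / (1 + α) < m ∧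
      (α < 1 → ∀ k, 1 / (1 + α) ≤ k →
        IntegrableOn (fun y => y ^ (-(1 + α)) * (gaussMean α k y ^ (1 + α) - 1)) (Set.Ioi 0) ∧
        (0 ≤ crit α k → k < m)) ∧
      ∀ᶠ lam in 𝓝[>] (0 : ℝ), m ≤ hc κ ν lam / lam) ∧
    ¬ Tendsto (fun lam => hc κ ν lam / lam) (𝓝[>] (0 : ℝ)) (𝓝 (1 / (1 + α))) := by
  have hsan : ∀ lam, 0 < lam →
      (∀ h, 0 ≤ h → Tendsto (feN κ ν lam h) atTop (𝓝 (freeEnergy κ ν lam h))) ∧
      0 < hc κ ν lam ∧ ∀ h, 0 ≤ h → (0 < freeEnergy κ ν lam h ↔ h < hc κ ν lam) := by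
    intro lam hlam
    have h1 := fun h hh => (Cop764.M_fe.J_fe
      ⟨κ, hκ0, α, cK, hα, hcK, htail, ν, inferInstance, hmean, hvar, hexp, lam, hlam⟩ h hh).1
    have h2 := Pool.Agent.TH983.hcr_char
      ⟨κ, hκ0, α, cK, hα, hcK, htail, ν, inferInstance, hmean, hvar, hexp, lam, hlam⟩
    exact ⟨h1, h2.1, h2.2⟩
  have hmain : ∃ m : ℝ, 1 / (1 + α) < m ∧
      (α < 1 → ∀ k, 1 / (1 + α) ≤ k →
        IntegrableOn (fun y => y ^ (-(1 + α)) * (gaussMean α k y ^ (1 + α) - 1)) (Set.Ioi 0) ∧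
        (0 ≤ crit α k → k < m)) ∧
      ∀ᶠ lam in 𝓝[>] (0 : ℝ), m ≤ hc κ ν lam / lam := by
    rcases lt_or_ge α 1 with hα1 | hα1
    · obtain ⟨m, hm, hev⟩ := Pool.Agent.TH983.slope_lt_one
        ⟨κ, hκ0, α, cK, hα, hcK, htail, ν, inferInstance, hmean, hvar, hexp, 1, one_pos⟩ hα1
      have h1 := (Pool.Agent.TH983.SJ_sup hα hα1).2.1
      have h2 := Pool.Agent.TH983.kx_gt hα
      have h3 : sSup (Pool.Agent.TH983.SJ α) < m := hm
      refine ⟨m, ?_, fun _ k hk => ?_, hev⟩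
      · rw [one_div]
        linarith
      · rw [one_div] at hk
        refine ⟨Pool.Agent.TH983.Jf_int hα hα1 hk, fun hc => ?_⟩
        exact lt_of_le_of_lt
          (le_csSup ⟨1, fun k hk => Pool.Agent.TH983.SJ_bdd hα hα1 k hk⟩ ⟨hk, hc⟩) h3
    · obtain ⟨m, hm, hev⟩ := Pool.Agent.TH983.slope_all
        ⟨κ, hκ0, α, cK, hα, hcK, htail, ν, inferInstance, hmean, hvar, hexp, 1, one_pos⟩
      exact ⟨m, hm, fun h => absurd h (not_lt.2 hα1), hev⟩
  refine ⟨hsan, hmain, fun hlim => ?_⟩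
  obtain ⟨m, hm, _, hev⟩ := hmain
  have := ge_of_tendsto hlim hev
  linarith

end Pool.Agent.Results.MP_65efe8_pr.NegativeAnswer
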